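import Pool.Agent.Helper18.UCHull
import Pool.Agent.Helper40.UC.Game

/-!
# From a bump with uniformly continuous second derivative to the data `Dat`
-/

open Filter Topology Set

namespace Pool.Agent.Helper18.UCHull

variable {X : Type*} [NormedAddCommGroup X] [NormedSpace ℝ X]

/-- The modulus of continuity of the second derivative of `f`. -/
noncomputable def mod2 (f : X → ℝ) (t : ℝ) : ℝ :=
  sSup {r | ∃ x y : X, ‖x - y‖ ≤ t ∧
    r = ‖fderiv ℝ (fderiv ℝ f) x - fderiv ℝ (fderiv ℝ f) y‖}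

theorem chain {f : X → ℝ} {δ : ℝ} (hδ : ∀ x y : X, dist x y ≤ δ →
      ‖fderiv ℝ (fderiv ℝ f) x - fderiv ℝ (fderiv ℝ f) y‖ ≤ 1) (n : ℕ) :
    ∀ x w : X, ‖w‖ ≤ n * δ →
      ‖fderiv ℝ (fderiv ℝ f) (x + w) - fderiv ℝ (fderiv ℝ f) x‖ ≤ n := by
  induction n with
  | zero =>
    intro x w hw
    have h1 : w = 0 := by
      rw [← norm_le_zero_iff]
      simpa using hw
    rw [h1, add_zero, sub_self, ContinuousLinearMap.opNorm_zero]
    exact Nat.cast_nonneg _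
  | succ n ih =>
    intro x w hw
    set s : ℝ := n / (n + 1) with hs
    have hs0 : 0 ≤ s := by positivity
    have hn1 : (0 : ℝ) < n + 1 := by positivity
    push_cast at hw ⊢
    have h1 : ‖s • w‖ ≤ n * δ := by
      rw [norm_smul, Real.norm_of_nonneg hs0]
      calc s * ‖w‖ ≤ s * ((n + 1) * δ) := by gcongr
        _ = n * δ := by rw [hs]; field_simp
    have h2 := ih x (s • w) h1
    have h3 : ‖fderiv ℝ (fderiv ℝ f) (x + w) - fderiv ℝ (fderiv ℝ f) (x + s • w)‖ ≤ 1 := by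
      apply hδ
      rw [dist_eq_norm]
      have e : x + w - (x + s • w) = (1 - s) • w := by
        rw [sub_smul, one_smul]
        abel
      have hs1 : 1 - s = 1 / (n + 1) := by
        rw [hs]
        field_simp
        ring
      rw [e, hs1, norm_smul, Real.norm_of_nonneg (by positivity), div_mul_eq_mul_div, one_mul,
        div_le_iff₀ hn1]
      linarith
    have h4 : fderiv ℝ (fderiv ℝ f) (x + w) - fderiv ℝ (fderiv ℝ f) x =
        (fderiv ℝ (fderiv ℝ f) (x + s • w) - fderiv ℝ (fderiv ℝ f) x) +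
        (fderiv ℝ (fderiv ℝ f) (x + w) - fderiv ℝ (fderiv ℝ f) (x + s • w)) := by abel
    rw [h4]
    have h5 := norm_add_le
      (fderiv ℝ (fderiv ℝ f) (x + s • w) - fderiv ℝ (fderiv ℝ f) x)
      (fderiv ℝ (fderiv ℝ f) (x + w) - fderiv ℝ (fderiv ℝ f) (x + s • w))
    linarith

theorem zero_out {f : X → ℝ} {R : ℝ} (hR : ∀ x ∈ Function.support f, ‖x‖ ≤ R) {x : X}
    (hx : R < ‖x‖) : f x = 0 ∧ fderiv ℝ f x = 0 ∧ fderiv ℝ (fderiv ℝ f) x = 0 := by
  have h0 : ∀ y : X, R < ‖y‖ → f y = 0 := fun y hy => by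
    by_contra hcon
    exact absurd (hR y hcon) (not_le.2 hy)
  have hev : ∀ y : X, R < ‖y‖ → ∀ᶠ z in 𝓝 y, R < ‖z‖ := fun y hy =>
    continuous_norm.continuousAt.eventually (lt_mem_nhds hy)
  have h1 : ∀ y : X, R < ‖y‖ → fderiv ℝ f y = 0 := fun y hy => by
    have h2 : f =ᶠ[𝓝 y] fun _ => (0 : ℝ) := (hev y hy).mono fun z hz => h0 z hz
    rw [h2.fderiv_eq]
    simp
  refine ⟨h0 x hx, h1 x hx, ?_⟩
  have h2 : fderiv ℝ f =ᶠ[𝓝 x] fun _ => (0 : X →L[ℝ] ℝ) := (hev x hx).mono fun z hz => h1 z hz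
  rw [h2.fderiv_eq]
  simp

section

variable {f : X → ℝ}

theorem D2_bdd [Nontrivial X] {R : ℝ} (hR : ∀ x ∈ Function.support f, ‖x‖ ≤ R) (hR0 : 0 ≤ R)
    (hu : UniformContinuous (fderiv ℝ (fderiv ℝ f))) :
    ∃ M, 0 ≤ M ∧ ∀ x, ‖fderiv ℝ (fderiv ℝ f) x‖ ≤ M := by
  obtain ⟨δ, hδ0, -, hδ⟩ := Helper40.UC.exists_unif hu one_pos
  obtain ⟨e, he⟩ := exists_norm_eq X (show 0 ≤ 2 * R + 1 by linarith)
  set n := ⌈(2 * R + 1) / δ⌉₊ with hn
  have hn1 : 2 * R + 1 ≤ n * δ := by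
    have := Nat.le_ceil ((2 * R + 1) / δ)
    rwa [div_le_iff₀ hδ0] at this
  refine ⟨n, by positivity, fun x => ?_⟩
  rcases lt_or_ge R ‖x‖ with h | h
  · rw [(zero_out hR h).2.2]
    have h0 : ‖(0 : X →L[ℝ] X →L[ℝ] ℝ)‖ = 0 := ContinuousLinearMap.opNorm_zero
    rw [h0]
    positivity
  · have h1 := chain hδ n x e (by rw [he]; exact hn1)
    have h2 : R < ‖x + e‖ := by
      have h3 : ‖e‖ ≤ ‖x + e‖ + ‖x‖ := by
        calc ‖e‖ = ‖(x + e) - x‖ := by rw [add_sub_cancel_left]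
          _ ≤ _ := norm_sub_le _ _
      linarith
    rw [(zero_out hR h2).2.2, zero_sub] at h1
    have h3 : ‖-fderiv ℝ (fderiv ℝ f) x‖ = ‖fderiv ℝ (fderiv ℝ f) x‖ :=
      ContinuousLinearMap.opNorm_neg _
    rwa [h3] at h1

variable {M : ℝ} (hM : ∀ x, ‖fderiv ℝ (fderiv ℝ f) x‖ ≤ M)

include hM

theorem diff_le (x y : X) :
    ‖fderiv ℝ (fderiv ℝ f) x - fderiv ℝ (fderiv ℝ f) y‖ ≤ 2 * M := by
  have h1 := norm_sub_le (fderiv ℝ (fderiv ℝ f) x) (fderiv ℝ (fderiv ℝ f) y)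
  have h2 := hM x
  have h3 := hM y
  linarith

theorem mod2_bdd (t : ℝ) : BddAbove {r | ∃ x y : X, ‖x - y‖ ≤ t ∧
    r = ‖fderiv ℝ (fderiv ℝ f) x - fderiv ℝ (fderiv ℝ f) y‖} := by
  refine ⟨2 * M, ?_⟩
  rintro r ⟨x, y, -, rfl⟩
  exact diff_le hM x y

omit hM in
theorem mod2_nonneg (t : ℝ) : 0 ≤ mod2 f t := by
  refine Real.sSup_nonneg ?_
  rintro r ⟨x, y, -, rfl⟩
  exact norm_nonneg (fderiv ℝ (fderiv ℝ f) x - fderiv ℝ (fderiv ℝ f) y)

theorem mod2_le (hM0 : 0 ≤ M) (t : ℝ) : mod2 f t ≤ 2 * M := by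
  refine Real.sSup_le ?_ (by linarith)
  rintro r ⟨x, y, -, rfl⟩
  exact diff_le hM x y

theorem mod2_mono : Monotone (mod2 f) := by
  intro s t hst
  refine Real.sSup_le ?_ (mod2_nonneg t)
  rintro r ⟨x, y, hxy, rfl⟩
  exact le_csSup (mod2_bdd hM t) ⟨x, y, hxy.trans hst, rfl⟩

theorem le_mod2 (x y : X) :
    ‖fderiv ℝ (fderiv ℝ f) x - fderiv ℝ (fderiv ℝ f) y‖ ≤ mod2 f ‖x - y‖ :=
  le_csSup (mod2_bdd hM _) ⟨x, y, le_rfl, rfl⟩

omit hM in
theorem mod2_tendsto (hu : UniformContinuous (fderiv ℝ (fderiv ℝ f))) :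
    Tendsto (mod2 f) (𝓝[>] 0) (𝓝 0) := by
  rw [Metric.tendsto_nhdsWithin_nhds]
  intro ε hε
  obtain ⟨δ, hδ0, -, hδ⟩ := Helper40.UC.exists_unif hu (half_pos hε)
  refine ⟨δ, hδ0, fun {t} ht htd => ?_⟩
  rw [Real.dist_eq, sub_zero] at htd ⊢
  rw [abs_of_nonneg (mod2_nonneg t)]
  have h1 : mod2 f t ≤ ε / 2 := by
    refine Real.sSup_le ?_ (by linarith)
    rintro r ⟨x, y, hxy, rfl⟩
    apply hδ
    rw [dist_eq_norm]
    exact hxy.trans ((le_abs_self t).trans htd.le)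
  linarith

theorem taylor_lower (hf : ContDiff ℝ 2 f) (x h : X) :
    f x + fderiv ℝ f x h + (1 / 2) * fderiv ℝ (fderiv ℝ f) x h h -
      mod2 f ‖h‖ / 2 * ‖h‖ ^ 2 ≤ f (x + h) := by
  refine Helper40.UC.taylor hf x h fun t ht => ?_
  refine (le_mod2 hM _ _).trans (mod2_mono hM ?_)
  rw [add_sub_cancel_left, norm_smul, Real.norm_of_nonneg ht.1]
  calc t * ‖h‖ ≤ 1 * ‖h‖ := by
        gcongr
        exact ht.2
    _ = _ := one_mul _

theorem taylor_upper (hf : ContDiff ℝ 2 f) (x h : X) :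
    f (x + h) ≤ f x + fderiv ℝ f x h + (1 / 2) * fderiv ℝ (fderiv ℝ f) x h h +
      mod2 f ‖h‖ / 2 * ‖h‖ ^ 2 := by
  have e1 : fderiv ℝ (fun x => - f x) = fun x => - fderiv ℝ f x := by
    ext1 x
    exact fderiv_fun_neg
  have e2 : fderiv ℝ (fderiv ℝ fun x => - f x) = fun x => - fderiv ℝ (fderiv ℝ f) x := by
    rw [e1]
    ext1 x
    exact fderiv_fun_neg
  have h1 := Helper40.UC.taylor (f := fun x => - f x) hf.neg (ε := mod2 f ‖h‖) x h
    fun t ht => by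
      have h2 : ‖fderiv ℝ (fderiv ℝ f) (x + t • h) - fderiv ℝ (fderiv ℝ f) x‖ ≤
          mod2 f ‖h‖ := by
        refine (le_mod2 hM _ _).trans (mod2_mono hM ?_)
        rw [add_sub_cancel_left, norm_smul, Real.norm_of_nonneg ht.1]
        calc t * ‖h‖ ≤ 1 * ‖h‖ := by
              gcongr
              exact ht.2
          _ = _ := one_mul _
      rw [e2]
      have h3 : -fderiv ℝ (fderiv ℝ f) (x + t • h) - -fderiv ℝ (fderiv ℝ f) x =
          -(fderiv ℝ (fderiv ℝ f) (x + t • h) - fderiv ℝ (fderiv ℝ f) x) := by abel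
      change ‖-fderiv ℝ (fderiv ℝ f) (x + t • h) - -fderiv ℝ (fderiv ℝ f) x‖ ≤ _
      rw [h3]
      have h4 : ‖-(fderiv ℝ (fderiv ℝ f) (x + t • h) - fderiv ℝ (fderiv ℝ f) x)‖ =
          ‖fderiv ℝ (fderiv ℝ f) (x + t • h) - fderiv ℝ (fderiv ℝ f) x‖ :=
        ContinuousLinearMap.opNorm_neg _
      rw [h4]
      exact h2
  rw [e2, e1] at h1
  have h5 : (-fderiv ℝ f x) h = -(fderiv ℝ f x h) := rfl
  have h6 : (-fderiv ℝ (fderiv ℝ f) x) h h = -(fderiv ℝ (fderiv ℝ f) x h h) := rfl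
  change -f x + (-fderiv ℝ f x) h + 1 / 2 * (-fderiv ℝ (fderiv ℝ f) x) h h -
    mod2 f ‖h‖ / 2 * ‖h‖ ^ 2 ≤ -f (x + h) at h1
  rw [h5, h6] at h1
  linarith

theorem form_bdd (x h k : X) : |fderiv ℝ (fderiv ℝ f) x h k| ≤ M * (‖h‖ * ‖k‖) := by
  have h1 := (fderiv ℝ (fderiv ℝ f) x h).le_opNorm k
  have h2 := (fderiv ℝ (fderiv ℝ f) x).le_opNorm h
  rw [Real.norm_eq_abs] at h1
  calc |fderiv ℝ (fderiv ℝ f) x h k| ≤ _ := h1
    _ ≤ (M * ‖h‖) * ‖k‖ := by
        refine mul_le_mul_of_nonneg_right (h2.trans ?_) (norm_nonneg _)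
        exact mul_le_mul_of_nonneg_right (hM x) (norm_nonneg _)
    _ = _ := by ring

end

/-- **The data of a bump.** -/
theorem exists_dat [Nontrivial X] {f : X → ℝ} (hf0 : f ≠ 0)
    (hb : Bornology.IsBounded (Function.support f)) (hf : ContDiff ℝ 2 f)
    (hu : UniformContinuous (fderiv ℝ (fderiv ℝ f))) :
    ∃ (v : X → ℝ) (R C r₀ s : ℝ), 0 < s ∧ Dat v R C r₀ (fun t => s * mod2 f t) ∧
      ∃ Mm, ∀ t, s * mod2 f t ≤ Mm := by
  obtain ⟨R', hR'⟩ := hb.exists_norm_le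
  set R := max R' 0 with hRdef
  have hR : ∀ x ∈ Function.support f, ‖x‖ ≤ R := fun x hx => (hR' x hx).trans (le_max_left _ _)
  have hR0 : 0 ≤ R := le_max_right _ _
  obtain ⟨M, hM0, hM⟩ := D2_bdd hR hR0 hu
  -- `f` is bounded
  have hfb : ∀ x, |f x| ≤ M * (2 * R + 1) ^ 2 := by
    intro x
    rcases lt_or_ge R ‖x‖ with h | h
    · rw [(zero_out hR h).1, abs_zero]
      positivity
    · obtain ⟨e, he⟩ := exists_norm_eq X (show 0 ≤ 2 * R + 1 by linarith)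
      have h2 : R < ‖x + e‖ := by
        have h3 : ‖e‖ ≤ ‖x + e‖ + ‖x‖ := by
          calc ‖e‖ = ‖(x + e) - x‖ := by rw [add_sub_cancel_left]
            _ ≤ _ := norm_sub_le _ _
        linarith
      obtain ⟨z1, z2, z3⟩ := zero_out hR h2
      have h4 := taylor_lower hM hf (x + e) (-e)
      have h5 := taylor_upper hM hf (x + e) (-e)
      rw [z1, z2, z3, norm_neg, he, add_neg_cancel_right] at h4 h5
      have h6 := mod2_le hM hM0 (2 * R + 1)
      have h7 : mod2 f (2 * R + 1) / 2 * (2 * R + 1) ^ 2 ≤ M * (2 * R + 1) ^ 2 := by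
        gcongr
        linarith
      have h8 : (0 : X →L[ℝ] ℝ) (-e) = 0 := rfl
      have h9 : (0 : X →L[ℝ] X →L[ℝ] ℝ) (-e) (-e) = 0 := rfl
      rw [h8, h9] at h4 h5
      exact abs_le.2 ⟨by linarith, by linarith⟩
  -- a point where `|f|` is almost maximal
  obtain ⟨x₀, hx₀0, hx₀⟩ : ∃ x₀, f x₀ ≠ 0 ∧ ∀ y, |f y| ≤ 9 / 8 * |f x₀| := by
    obtain ⟨z, hz⟩ := Function.ne_iff.1 hf0
    have hbdd : BddAbove (range fun x => |f x|) := ⟨_, by
      rintro _ ⟨x, rfl⟩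
      exact hfb x⟩
    set S := ⨆ x, |f x| with hS
    have hSpos : 0 < S := by
      have h1 : |f z| ≤ S := le_ciSup hbdd z
      have h2 : 0 < |f z| := abs_pos.2 hz
      linarith
    obtain ⟨x₀, hx₀⟩ := exists_lt_of_lt_ciSup (show 8 / 9 * S < ⨆ x, |f x| by linarith)
    refine ⟨x₀, ?_, fun y => ?_⟩
    · intro h
      rw [h, abs_zero] at hx₀
      linarith
    · have h1 : |f y| ≤ S := le_ciSup hbdd y
      linarith
  set a := f x₀ with ha
  have haabs : 0 < |a| := abs_pos.2 hx₀0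
  let v : X → ℝ := fun y => 1 - (f (x₀ + y) + f (x₀ - y)) / (2 * a)
  have hvcont : Continuous v := by
    have := hf.continuous
    fun_prop
  have hv0 : v 0 = 0 := by
    change 1 - (f (x₀ + 0) + f (x₀ - 0)) / (2 * a) = 0
    rw [add_zero, sub_zero, ← ha]
    field_simp
    ring
  obtain ⟨r, hr0, hr⟩ : ∃ r > 0, ∀ y : X, ‖y‖ ≤ r → v y ≤ 1 / 8 := by
    have h0 : Tendsto v (𝓝 0) (𝓝 0) := by
      have := hvcont.tendsto 0
      rwa [hv0] at this
    have h1 : ∀ᶠ y in 𝓝 (0 : X), v y < 1 / 8 := h0.eventually (gt_mem_nhds (by norm_num))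
    obtain ⟨r, hr0, hr⟩ := Metric.nhds_basis_closedBall.eventually_iff.1 h1
    exact ⟨r, hr0, fun y hy => (hr (by simpa using hy)).le⟩
  set s := 1 / (2 * |a|) with hs
  have hs0 : 0 < s := by positivity
  set R₁ := R + ‖x₀‖ + 1 with hR₁
  have hR₁0 : 0 < R₁ := by positivity
  refine ⟨v, R₁, M * s, min r R₁, s, hs0, ?_, s * (2 * M), fun t => ?_⟩
  · refine ⟨hR₁0, by positivity, by positivity, min_le_right _ _, ?_, ?_, ?_, hv0, ?_, ?_, ?_, ?_⟩
    · exact (mod2_mono hM).const_mul hs0.le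
    · intro t
      have := mod2_nonneg (f := f) t
      positivity
    · intro y
      change 1 - (f (x₀ + -y) + f (x₀ - -y)) / (2 * a) = 1 - (f (x₀ + y) + f (x₀ - y)) / (2 * a)
      rw [sub_neg_eq_add, ← sub_eq_add_neg, add_comm (f (x₀ - y))]
    · intro y
      change -(1 / 8) ≤ 1 - (f (x₀ + y) + f (x₀ - y)) / (2 * a)
      have h1 : |(f (x₀ + y) + f (x₀ - y)) / (2 * a)| ≤ 9 / 8 := by
        rw [abs_div, div_le_iff₀ (by positivity), abs_mul, abs_two]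
        have h2 := abs_add_le (f (x₀ + y)) (f (x₀ - y))
        have h3 := hx₀ (x₀ + y)
        have h4 := hx₀ (x₀ - y)
        linarith
      have h2 := (abs_le.1 h1).2
      linarith
    · intro y hy
      have h1 : R < ‖x₀ + y‖ := by
        have : ‖y‖ ≤ ‖x₀ + y‖ + ‖x₀‖ := by
          calc ‖y‖ = ‖(x₀ + y) - x₀‖ := by rw [add_sub_cancel_left]
            _ ≤ _ := norm_sub_le _ _
        linarith
      have h2 : R < ‖x₀ - y‖ := by
        have : ‖y‖ ≤ ‖x₀ - y‖ + ‖x₀‖ := by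
          calc ‖y‖ = ‖x₀ - (x₀ - y)‖ := by rw [sub_sub_cancel]
            _ ≤ ‖x₀‖ + ‖x₀ - y‖ := norm_sub_le _ _
            _ = _ := add_comm _ _
        linarith
      change 1 - (f (x₀ + y) + f (x₀ - y)) / (2 * a) = 1
      rw [(zero_out hR h1).1, (zero_out hR h2).1]
      simp
    · intro y hy
      exact hr y (hy.trans (min_le_left _ _))
    · intro y
      set D := fderiv ℝ (fderiv ℝ f) with hD
      let ℓ : X →L[ℝ] ℝ := (-(1 / (2 * a))) • (fderiv ℝ f (x₀ + y) - fderiv ℝ f (x₀ - y))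
      let Q : X →L[ℝ] X →L[ℝ] ℝ := (-(1 / (4 * a))) • (D (x₀ + y) + D (x₀ - y))
      have hsymm : ∀ x h k : X, D x h k = D x k h := fun x h k => by
        have h1 : IsSymmSndFDerivAt ℝ f x :=
          hf.contDiffAt.isSymmSndFDerivAt (by simp)
        exact h1 h k
      refine ⟨ℓ, Q, fun h k => ?_, fun h k => ?_, fun h => ?_⟩
      · change -(1 / (4 * a)) * (D (x₀ + y) h k + D (x₀ - y) h k) =
          -(1 / (4 * a)) * (D (x₀ + y) k h + D (x₀ - y) k h)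
        rw [hsymm (x₀ + y) h k, hsymm (x₀ - y) h k]
      · change |-(1 / (4 * a)) * (D (x₀ + y) h k + D (x₀ - y) h k)| ≤ M * s * (‖h‖ * ‖k‖)
        have h1 := form_bdd hM (x₀ + y) h k
        have h2 := form_bdd hM (x₀ - y) h k
        have h3 := abs_add_le (D (x₀ + y) h k) (D (x₀ - y) h k)
        have h4 : |-(1 / (4 * a))| = s / 2 := by
          rw [abs_neg, abs_div, abs_one, abs_mul, hs, abs_of_pos (show (0 : ℝ) < 4 by norm_num)]
          field_simp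
          norm_num
        rw [abs_mul, h4]
        calc s / 2 * |D (x₀ + y) h k + D (x₀ - y) h k| ≤
            s / 2 * (M * (‖h‖ * ‖k‖) + M * (‖h‖ * ‖k‖)) := by
              gcongr
              exact h3.trans (add_le_add h1 h2)
          _ = _ := by ring
      · -- the expansion
        change 1 - (f (x₀ + (y + h)) + f (x₀ - (y + h))) / (2 * a) ≤
          1 - (f (x₀ + y) + f (x₀ - y)) / (2 * a) +
          -(1 / (2 * a)) * (fderiv ℝ f (x₀ + y) h - fderiv ℝ f (x₀ - y) h) +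
          -(1 / (4 * a)) * (D (x₀ + y) h h + D (x₀ - y) h h) + s * mod2 f ‖h‖ * ‖h‖ ^ 2
        have e1 : x₀ + (y + h) = x₀ + y + h := by abel
        have e2 : x₀ - (y + h) = x₀ - y + -h := by abel
        rw [e1, e2]
        have a1 := taylor_lower hM hf (x₀ + y) h
        have a2 := taylor_upper hM hf (x₀ + y) h
        have b1 := taylor_lower hM hf (x₀ - y) (-h)
        have b2 := taylor_upper hM hf (x₀ - y) (-h)
        have e3 : D (x₀ - y) (-h) (-h) = D (x₀ - y) h h := by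
          rw [map_neg, map_neg]
          change -(-(D (x₀ - y) h h)) = _
          rw [neg_neg]
        rw [norm_neg, map_neg, e3] at b1 b2
        set Δ := f (x₀ + y + h) + f (x₀ - y + -h) - (f (x₀ + y) + f (x₀ - y)) -
          (fderiv ℝ f (x₀ + y) h - fderiv ℝ f (x₀ - y) h) -
          1 / 2 * (D (x₀ + y) h h + D (x₀ - y) h h) with hΔ
        have hΔb : |Δ| ≤ mod2 f ‖h‖ * ‖h‖ ^ 2 := by
          refine abs_le.2 ⟨?_, ?_⟩
          · rw [hΔ]; linarith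
          · rw [hΔ]; linarith
        have h5 : |Δ / (2 * a)| ≤ s * mod2 f ‖h‖ * ‖h‖ ^ 2 := by
          rw [abs_div, abs_mul, abs_two, hs, div_le_iff₀ (by positivity)]
          calc |Δ| ≤ mod2 f ‖h‖ * ‖h‖ ^ 2 := hΔb
            _ = _ := by field_simp
        have h6 := (abs_le.1 h5).1
        have h7 : Δ / (2 * a) = (f (x₀ + y + h) + f (x₀ - y + -h)) / (2 * a) -
            (f (x₀ + y) + f (x₀ - y)) / (2 * a) -
            (1 / (2 * a)) * (fderiv ℝ f (x₀ + y) h - fderiv ℝ f (x₀ - y) h) -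
            (1 / (4 * a)) * (D (x₀ + y) h h + D (x₀ - y) h h) := by
          rw [hΔ]
          field_simp
          ring
        rw [h7] at h6
        linarith
  · have := mod2_le hM hM0 t
    gcongr

end Pool.Agent.Helper18.UCHull
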