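import Pool.Agent.Helper18.UCLim

/-!
# The upper expansion of the new norm
-/

open Filter Topology Set

namespace Pool.Agent.Helper18.UCHull

variable {X : Type*} [NormedAddCommGroup X] [NormedSpace ℝ X]
variable {v : X → ℝ} {R C r₀ : ℝ} {m : ℝ → ℝ}

theorem Bd_nonneg (D : Dat v R C r₀ m) : 0 ≤ Bd R C m := by
  have := D.R_pos
  have := D.C_nonneg
  have := D.m_nonneg (2 * R)
  unfold Bd
  positivity

theorem slope_ge [Nontrivial X] (D : Dat v R C r₀ m) {Mm : ℝ} (hM : ∀ t, m t ≤ Mm) {x : X}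
    (hx : N v R x = 1) (ℓ : X →L[ℝ] ℝ) (Q : X →L[ℝ] X →L[ℝ] ℝ)
    (hQ : ∀ h k, |Q h k| ≤ 2 * C * (‖h‖ * ‖k‖))
    (hE : ∀ h, ‖h‖ ≤ R → N v R (x + h) ≤
        max 1 (1 + 8 * (ℓ h + Q h h + 2 * m (2 * ‖h‖) * ‖h‖ ^ 2))) : 1 / 8 ≤ ℓ x := by
  have hR := D.R_pos
  have hC := D.C_nonneg
  have hMm : 0 ≤ Mm := (D.m_nonneg 0).trans (hM 0)
  have hxn : ‖x‖ ≤ 2 * R := by
    have := le_N D x
    rwa [hx, mul_one] at this
  refine le_of_forall_pos_le_add fun ε hε => ?_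
  set W := 8 * C * R ^ 2 + 8 * Mm * R ^ 2 + 1 with hW
  have hWpos : 0 < W := by positivity
  set t := min (1 / 2) (ε / W) with ht
  have ht0 : 0 < t := by positivity
  have ht1 : t ≤ 1 / 2 := min_le_left _ _
  have ht2 : t * W ≤ ε := by
    have : t ≤ ε / W := min_le_right _ _
    rwa [le_div_iff₀ hWpos] at this
  have hn : ‖t • x‖ = t * ‖x‖ := by rw [norm_smul, Real.norm_of_nonneg ht0.le]
  have h1 := hE (t • x) (by
    rw [hn]
    nlinarith [norm_nonneg x])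
  have e1 : x + t • x = (1 + t) • x := by rw [add_smul, one_smul]
  rw [e1, N_smul_pos (by linarith), hx, mul_one] at h1
  have h2 : 1 + t ≤ 1 + 8 * (ℓ (t • x) + Q (t • x) (t • x) +
      2 * m (2 * ‖t • x‖) * ‖t • x‖ ^ 2) := by
    rcases le_max_iff.1 h1 with h | h
    · linarith
    · exact h
  have e2 : ℓ (t • x) = t * ℓ x := by rw [map_smul]; rfl
  have h3 := le_abs_self (Q (t • x) (t • x))
  have h4 := hQ (t • x) (t • x)
  have h5 := hM (2 * ‖t • x‖)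
  rw [e2] at h2
  have hxx : ‖x‖ ^ 2 ≤ 4 * R ^ 2 := by nlinarith [norm_nonneg x]
  have h6 : 2 * C * (‖t • x‖ * ‖t • x‖) ≤ t * (t * (8 * C * R ^ 2)) := by
    rw [hn]
    have : 2 * C * (t * ‖x‖ * (t * ‖x‖)) = t * (t * (2 * C * ‖x‖ ^ 2)) := by ring
    rw [this]
    have h7 : 2 * C * ‖x‖ ^ 2 ≤ 2 * C * (4 * R ^ 2) := by gcongr
    have h8 : 2 * C * ‖x‖ ^ 2 ≤ 8 * C * R ^ 2 := by linarith
    gcongr
  have h7 : 2 * m (2 * ‖t • x‖) * ‖t • x‖ ^ 2 ≤ t * (t * (8 * Mm * R ^ 2)) := by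
    calc 2 * m (2 * ‖t • x‖) * ‖t • x‖ ^ 2 ≤ 2 * Mm * ‖t • x‖ ^ 2 := by gcongr
      _ = t * (t * (2 * Mm * ‖x‖ ^ 2)) := by rw [hn]; ring
      _ ≤ t * (t * (2 * Mm * (4 * R ^ 2))) := by gcongr
      _ = _ := by ring
  have h8 : t * (1 / 8) ≤ t * (ℓ x + t * (8 * C * R ^ 2) + t * (8 * Mm * R ^ 2)) := by
    linarith
  have h9 := le_of_mul_le_mul_left h8 ht0
  have h10 : t * (8 * C * R ^ 2) + t * (8 * Mm * R ^ 2) ≤ t * W := by
    rw [hW]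
    nlinarith
  linarith

/-- The numbers in the key inequality. -/
theorem key_real {lam a q A E lh B G Z tau L1 c1 c4 K1 K3 P1 μ CR GG : ℝ}
    (ha : 0 ≤ a) (hlam : 1 / 8 ≤ lam) (hq : q = A / lam + E) (htau : tau = 1 + lh + q)
    (hE : E = K1 * (μ + a) * a ^ 2) (hμ : 0 ≤ μ) (hE0 : 0 ≤ E) (hP1 : 0 ≤ P1)
    (hK1 : K1 = 256 * P1 + 16 * c4 * c1) (hc1 : 0 ≤ c1) (hc4 : 0 ≤ c4)
    (hA : |A| ≤ lam * (c1 * a ^ 2)) (hlh : |lam * lh| ≤ L1 * a) (hB : |B| ≤ CR * a)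
    (hG : |G| ≤ GG) (hGG : 0 ≤ GG)
    (hc4' : c4 = L1 + 2 * CR + 1) (hqK : |q| ≤ K3 * a ^ 2) (hGK : GG * K3 * a ≤ 1)
    (hc4a : c4 * a ≤ 1 / 16) (hZ : Z ≤ 8 * P1 * μ * a ^ 2) (hZ0 : 0 ≤ Z)
    (htau1 : 3 / 4 ≤ tau) (htau2 : tau ≤ 5 / 4) :
    -(tau⁻¹ * (q * lam)) + tau⁻¹ * (tau⁻¹ * (A - 2 * q * B + q ^ 2 * G)) + Z ≤ 0 := by
  have ht0 : 0 < tau := by linarith
  have hlam0 : 0 < lam := by linarith
  -- it suffices to multiply by `tau ^ 2`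
  suffices h : -(tau * (q * lam)) + (A - 2 * q * B + q ^ 2 * G) + tau ^ 2 * Z ≤ 0 by
    have e : -(tau⁻¹ * (q * lam)) + tau⁻¹ * (tau⁻¹ * (A - 2 * q * B + q ^ 2 * G)) + Z =
        (tau ^ 2)⁻¹ * (-(tau * (q * lam)) + (A - 2 * q * B + q ^ 2 * G) + tau ^ 2 * Z) := by
      field_simp
    rw [e]
    exact mul_nonpos_of_nonneg_of_nonpos (by positivity) h
  have e1 : tau * (q * lam) = A + lam * E + q * (lam * lh) + lam * q ^ 2 := by
    have e2 : q * lam = A + lam * E := by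
      rw [hq]
      field_simp
    rw [htau]
    calc (1 + lh + q) * (q * lam) = q * lam + q * (lam * lh) + lam * q ^ 2 := by ring
      _ = _ := by rw [e2]
  have hqa : |q| ≤ c1 * a ^ 2 + E := by
    rw [hq]
    have h1 : |A / lam| ≤ c1 * a ^ 2 := by
      rw [abs_div, abs_of_pos hlam0, div_le_iff₀ hlam0]
      linarith
    calc |A / lam + E| ≤ |A / lam| + |E| := abs_add_le _ _
      _ ≤ c1 * a ^ 2 + E := by rw [abs_of_nonneg hE0]; linarith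
  have h1 : -(q * (lam * lh)) ≤ |q| * (L1 * a) := by
    calc -(q * (lam * lh)) ≤ |q * (lam * lh)| := neg_le_abs _
      _ = |q| * |lam * lh| := abs_mul _ _
      _ ≤ _ := by gcongr
  have h2 : -(2 * q * B) ≤ |q| * (2 * CR * a) := by
    calc -(2 * q * B) ≤ |2 * q * B| := neg_le_abs _
      _ = |q| * (2 * |B|) := by rw [abs_mul, abs_mul, abs_two]; ring
      _ ≤ |q| * (2 * (CR * a)) := by gcongr
      _ = _ := by ring
  have h3 : q ^ 2 * G ≤ |q| * a := by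
    calc q ^ 2 * G ≤ q ^ 2 * |G| := by
          gcongr
          exact le_abs_self _
      _ ≤ q ^ 2 * GG := by gcongr
      _ = |q| * |q| * GG := by rw [← sq_abs q]; ring
      _ ≤ |q| * (K3 * a ^ 2) * GG := by gcongr
      _ = |q| * a * (GG * K3 * a) := by ring
      _ ≤ |q| * a * 1 := by gcongr
      _ = _ := by ring
  have h4 : tau ^ 2 * Z ≤ 16 * P1 * μ * a ^ 2 := by
    have h5 : tau ^ 2 ≤ 2 := by nlinarith
    calc tau ^ 2 * Z ≤ 2 * Z := by gcongr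
      _ ≤ 2 * (8 * P1 * μ * a ^ 2) := by gcongr
      _ = _ := by ring
  have h5 : |q| * (L1 * a) + |q| * (2 * CR * a) + |q| * a = |q| * (c4 * a) := by
    rw [hc4']
    ring
  have h6 : |q| * (c4 * a) ≤ c4 * c1 * a ^ 3 + E / 16 := by
    calc |q| * (c4 * a) ≤ (c1 * a ^ 2 + E) * (c4 * a) := by gcongr
      _ = c4 * c1 * a ^ 3 + E * (c4 * a) := by ring
      _ ≤ c4 * c1 * a ^ 3 + E * (1 / 16) := by gcongr
      _ = _ := by ring
  have h7 : c4 * c1 * a ^ 3 + 16 * P1 * μ * a ^ 2 ≤ E / 16 := by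
    have h8 : 0 ≤ P1 * a ^ 3 := by positivity
    have h9 : 0 ≤ c4 * c1 * (μ * a ^ 2) := by positivity
    rw [hE, hK1]
    nlinarith
  have h8 : 0 ≤ lam * q ^ 2 := by positivity
  have h9 : E / 8 ≤ lam * E := by nlinarith
  rw [e1]
  linarith

end Pool.Agent.Helper18.UCHull
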