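import Pool.Agent.Helper18.UCExp

/-!
# The upper expansion of the new norm, final form
-/

open Filter Topology Set

namespace Pool.Agent.Helper18.UCHull

variable {X : Type*} [NormedAddCommGroup X] [NormedSpace ℝ X]
variable {v : X → ℝ} {R C r₀ : ℝ} {m : ℝ → ℝ}

theorem final_exp [Nontrivial X] (D : Dat v R C r₀ m) {Mm : ℝ} (hM : ∀ t, m t ≤ Mm) :
    ∃ K > 0, ∀ x, N v R x = 1 → ∃ (ℓ : X →L[ℝ] ℝ) (Q : X →L[ℝ] X →L[ℝ] ℝ),
      (∀ h k, Q h k = Q k h) ∧ (∀ h k, |Q h k| ≤ K * (‖h‖ * ‖k‖)) ∧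
      ∀ h, N v R (x + h) ≤ 1 + ℓ h + Q h h + K * (m (K * ‖h‖) + ‖h‖) * ‖h‖ ^ 2 := by
  have hR := D.R_pos
  have hC := D.C_nonneg
  have hr := D.r₀_pos
  have hMm : 0 ≤ Mm := (D.m_nonneg 0).trans (hM 0)
  set L1 := Bd R C m with hL1
  have hL1' : 0 ≤ L1 := Bd_nonneg D
  set p := 1 + 16 * L1 * R with hp
  have hp1 : 1 ≤ p := by
    rw [hp]
    have : 0 ≤ 16 * L1 * R := by positivity
    linarith
  have hp0 : 0 < p := by linarith
  set c1 := 16 * C * p ^ 2 with hc1
  have hc1' : 0 ≤ c1 := by positivity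
  set c4 := L1 + 2 * (4 * C * p * R) + 1 with hc4
  have hc4' : 0 ≤ c4 := by positivity
  set K1 := 256 * (p + 1) ^ 2 + 16 * c4 * c1 with hK1
  have hK1' : 0 < K1 := by positivity
  set K2 := 4 * (p + 1) with hK2
  have hK2' : 0 < K2 := by positivity
  set K3 := c1 + K1 * (Mm + 1) with hK3
  have hK3' : 0 < K3 := by positivity
  set T := 1 + 64 * L1 + 8 * K3 + 2 * R * K3 + 2 * (p + 1) / R + 8 * C * R ^ 2 * K3 + 16 * c4
    with hT
  have n1 : 0 ≤ 64 * L1 := by positivity
  have n2 : 0 ≤ 8 * K3 := by positivity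
  have n3 : 0 ≤ 2 * R * K3 := by positivity
  have n4 : 0 ≤ 2 * (p + 1) / R := by positivity
  have n5 : 0 ≤ 8 * C * R ^ 2 * K3 := by positivity
  have n6 : 0 ≤ 16 * c4 := by positivity
  have hT1 : 1 ≤ T := by rw [hT]; linarith
  have hT0 : 0 < T := by linarith
  set t0 := 1 / T with ht0
  have ht0' : 0 < t0 := by positivity
  have htT : t0 * T = 1 := by rw [ht0]; field_simp
  have hTle : ∀ a s : ℝ, 0 ≤ a → a ≤ t0 → 0 ≤ s → s ≤ T → s * a ≤ 1 := by
    intro a s ha hat hs hsT
    calc s * a ≤ T * t0 := by gcongr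
      _ = 1 := by rw [mul_comm, htT]
  set K := K1 + K2 + c1 + (1 / r₀ + 8 * L1 + c1) / t0 ^ 2 with hK
  have hKl : 0 ≤ (1 / r₀ + 8 * L1 + c1) / t0 ^ 2 := by positivity
  have hKpos : 0 < K := by rw [hK]; positivity
  clear_value K t0 T K3 K2 K1 c4 c1 p L1
  refine ⟨K, hKpos, fun x hx => ?_⟩
  obtain ⟨ℓ, Q, hℓ, hQs, hQb, hE⟩ := at_point D hx
  rw [← hL1] at hℓ
  have hlam : 1 / 8 ≤ ℓ x := slope_ge D hM hx ℓ Q hQb hE
  set lam := ℓ x with hlamdef
  have hlam0 : 0 < lam := by linarith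
  have hxn : ‖x‖ ≤ 2 * R := by
    have := le_N D x
    rwa [hx, mul_one] at this
  let ℓ' : X →L[ℝ] ℝ := lam⁻¹ • ℓ
  have hℓ' : ∀ h, ℓ' h = lam⁻¹ * ℓ h := fun h => rfl
  let P : X →L[ℝ] X := ContinuousLinearMap.id ℝ X - ℓ'.smulRight x
  have hP : ∀ h, P h = h - (ℓ' h) • x := fun h => rfl
  let Q' : X →L[ℝ] X →L[ℝ] ℝ := lam⁻¹ • (Q.bilinearComp P P)
  have hQ' : ∀ h k, Q' h k = lam⁻¹ * Q (P h) (P k) := fun h k => rfl
  have hlinv : lam⁻¹ ≤ 8 := by
    rw [inv_le_comm₀ hlam0 (by norm_num)]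
    linarith
  have hlinv0 : 0 ≤ lam⁻¹ := by positivity
  have hℓ'b : ∀ h, |ℓ' h| ≤ 8 * L1 * ‖h‖ := fun h => by
    rw [hℓ', abs_mul, abs_of_nonneg hlinv0, mul_assoc]
    exact mul_le_mul hlinv (hℓ h) (abs_nonneg _) (by norm_num)
  have hPb : ∀ h, ‖P h‖ ≤ p * ‖h‖ := fun h => by
    rw [hP]
    calc ‖h - ℓ' h • x‖ ≤ ‖h‖ + ‖ℓ' h • x‖ := norm_sub_le _ _
      _ = ‖h‖ + |ℓ' h| * ‖x‖ := by rw [norm_smul, Real.norm_eq_abs]
      _ ≤ ‖h‖ + (8 * L1 * ‖h‖) * (2 * R) := by
          gcongr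
          exact hℓ'b h
      _ = p * ‖h‖ := by rw [hp]; ring
  have hQPb : ∀ h k, |Q (P h) (P k)| ≤ 2 * C * p ^ 2 * (‖h‖ * ‖k‖) := fun h k => by
    calc |Q (P h) (P k)| ≤ 2 * C * (‖P h‖ * ‖P k‖) := hQb _ _
      _ ≤ 2 * C * ((p * ‖h‖) * (p * ‖k‖)) := by
          gcongr
          · exact hPb h
          · exact hPb k
      _ = _ := by ring
  have hQ'b : ∀ h k, |Q' h k| ≤ c1 * (‖h‖ * ‖k‖) := fun h k => by
    rw [hQ', abs_mul, abs_of_nonneg hlinv0]
    calc lam⁻¹ * |Q (P h) (P k)| ≤ 8 * (2 * C * p ^ 2 * (‖h‖ * ‖k‖)) :=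
          mul_le_mul hlinv (hQPb h k) (abs_nonneg _) (by norm_num)
      _ = _ := by rw [hc1]; ring
  refine ⟨ℓ', Q', fun h k => ?_, fun h k => ?_, fun h => ?_⟩
  · rw [hQ', hQ', hQs]
  · refine (hQ'b h k).trans ?_
    have : c1 ≤ K := by rw [hK]; linarith
    gcongr
  · set a := ‖h‖ with ha
    have ha0 : 0 ≤ a := norm_nonneg _
    rcases le_or_gt a t0 with hat | hat
    · -- small `h`
      have ha1 : a ≤ 1 := by
        have := hTle a 1 ha0 hat zero_le_one hT1
        linarith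
      set μ := m (K2 * a) with hμ
      have hμ0 : 0 ≤ μ := D.m_nonneg _
      set E := K1 * (μ + a) * a ^ 2 with hEdef
      have hE0 : 0 ≤ E := by positivity
      have hEK : E ≤ K * (m (K * a) + a) * a ^ 2 := by
        have h1 : K2 ≤ K := by rw [hK]; linarith
        have h2 : K1 ≤ K := by rw [hK]; linarith
        have h3 : μ ≤ m (K * a) := D.m_mono (by gcongr)
        rw [hEdef]
        gcongr
      set A := Q (P h) (P h) with hA
      set q := A / lam + E with hq
      have hQ'A : Q' h h = A / lam := by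
        rw [hQ', ← hA, inv_mul_eq_div]
      set lh := ℓ' h with hlh
      set tau := 1 + lh + q with htau
      suffices hN : N v R (x + h) ≤ tau by
        rw [hQ'A]
        have : tau = 1 + lh + (A / lam + E) := rfl
        linarith
      have haA : |A| ≤ lam * (c1 * a ^ 2) := by
        have h1 := hQPb h h
        rw [← hA] at h1
        have h2 : 2 * C * p ^ 2 * (a * a) ≤ lam * (c1 * a ^ 2) := by
          rw [hc1]
          have h3 : (1 / 8) * (16 * C * p ^ 2 * a ^ 2) ≤ lam * (16 * C * p ^ 2 * a ^ 2) := by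
            gcongr
          linarith
        exact h1.trans h2
      have hqK : |q| ≤ K3 * a ^ 2 := by
        have h1 : |A / lam| ≤ c1 * a ^ 2 := by
          rw [abs_div, abs_of_pos hlam0, div_le_iff₀ hlam0]
          linarith
        have h2 : E ≤ K1 * (Mm + 1) * a ^ 2 := by
          rw [hEdef]
          gcongr
          exact hM _
        calc |q| ≤ |A / lam| + |E| := abs_add_le _ _
          _ = |A / lam| + E := by rw [abs_of_nonneg hE0]
          _ ≤ c1 * a ^ 2 + K1 * (Mm + 1) * a ^ 2 := add_le_add h1 h2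
          _ = K3 * a ^ 2 := by rw [hK3]; ring
      have hlhb : |lh| ≤ 8 * L1 * a := hℓ'b h
      have h8K : 8 * K3 * a ≤ 1 := hTle a _ ha0 hat n2 (by rw [hT]; linarith)
      have h64 : 64 * L1 * a ≤ 1 := hTle a _ ha0 hat n1 (by rw [hT]; linarith)
      have h2RK : 2 * R * K3 * a ≤ 1 := hTle a _ ha0 hat n3 (by rw [hT]; linarith)
      have h2p : 2 * (p + 1) / R * a ≤ 1 := hTle a _ ha0 hat n4 (by rw [hT]; linarith)
      have h8C : 8 * C * R ^ 2 * K3 * a ≤ 1 := hTle a _ ha0 hat n5 (by rw [hT]; linarith)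
      have h16 : 16 * c4 * a ≤ 1 := hTle a _ ha0 hat n6 (by rw [hT]; linarith)
      have hq8 : |q| ≤ 1 / 8 := by
        have h1 : K3 * a ^ 2 ≤ K3 * a * 1 := by
          rw [sq, ← mul_assoc]
          gcongr
        linarith
      have hlh8 : |lh| ≤ 1 / 8 := by linarith
      have htau1 : 3 / 4 ≤ tau := by
        have := (abs_le.1 hq8).1
        have := (abs_le.1 hlh8).1
        rw [htau]
        linarith
      have htau2 : tau ≤ 5 / 4 := by
        have := (abs_le.1 hq8).2
        have := (abs_le.1 hlh8).2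
        rw [htau]
        linarith
      have htau0 : 0 < tau := by linarith
      set k := tau⁻¹ • (P h - q • x) with hk
      have hxk : x + k = tau⁻¹ • (x + h) := by
        have h1 : x = tau⁻¹ • (tau • x) := by
          rw [smul_smul, inv_mul_cancel₀ htau0.ne', one_smul]
        have h2 : tau • x + (P h - q • x) = x + h := by
          rw [hP, htau, ← hlh, add_smul, add_smul, one_smul]
          abel
        calc x + k = tau⁻¹ • (tau • x) + k := by rw [← h1]
          _ = tau⁻¹ • (tau • x + (P h - q • x)) := by rw [hk, ← smul_add]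
          _ = _ := by rw [h2]
      have hkn : ‖k‖ ≤ 2 * (p + 1) * a := by
        have h1 : ‖P h - q • x‖ ≤ p * a + |q| * (2 * R) := by
          calc ‖P h - q • x‖ ≤ ‖P h‖ + ‖q • x‖ := norm_sub_le _ _
            _ = ‖P h‖ + |q| * ‖x‖ := by rw [norm_smul, Real.norm_eq_abs]
            _ ≤ p * a + |q| * (2 * R) := by
                gcongr
                exact hPb h
        have h2 : |q| * (2 * R) ≤ a := by
          calc |q| * (2 * R) ≤ K3 * a ^ 2 * (2 * R) := by gcongr
            _ = (2 * R * K3 * a) * a := by ring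
            _ ≤ 1 * a := by gcongr
            _ = a := one_mul a
        have h3 : tau⁻¹ ≤ 2 := by
          rw [inv_le_comm₀ htau0 (by norm_num)]
          linarith
        calc ‖k‖ = tau⁻¹ * ‖P h - q • x‖ := by
              rw [hk, norm_smul, Real.norm_of_nonneg (by positivity)]
          _ ≤ 2 * (p * a + a) := by
              gcongr
              linarith
          _ = _ := by ring
      have hkR : ‖k‖ ≤ R := by
        refine hkn.trans ?_
        rw [div_mul_eq_mul_div, div_le_one hR] at h2p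
        exact h2p
      have h1 := hE k hkR
      -- the linear part
      have hℓk : ℓ k = -(tau⁻¹ * (q * lam)) := by
        have h2 : ℓ (P h) = 0 := by
          rw [hP, map_sub, map_smul, hℓ']
          change ℓ h - lam⁻¹ * ℓ h * lam = 0
          field_simp
          ring
        rw [hk, map_smul, map_sub, map_smul, h2]
        change tau⁻¹ * (0 - q * lam) = _
        ring
      set B := Q (P h) x with hBdef
      set G := Q x x with hGdef
      have hQk : Q k k = tau⁻¹ * (tau⁻¹ * (A - 2 * q * B + q ^ 2 * G)) := by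
        have h3 : ∀ u w : X, Q (u - w) (u - w) = Q u u - Q u w - Q w u + Q w w := by
          intro u w
          rw [map_sub, map_sub]
          change Q u u - Q w u - (Q u w - Q w w) = _
          ring
        have h4 : Q k k = tau⁻¹ * (tau⁻¹ * Q (P h - q • x) (P h - q • x)) := by
          rw [hk, map_smul, map_smul]
          rfl
        have h5 : Q (P h) (q • x) = q * B := by rw [map_smul]; rfl
        have h6 : Q (q • x) (P h) = q * B := by rw [hQs, h5]
        have h7 : Q (q • x) (q • x) = q * (q * G) := by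
          rw [map_smul, map_smul]
          rfl
        rw [h4, h3, h5, h6, h7, ← hA]
        ring
      have hlam_lh : |lam * lh| ≤ L1 * a := by
        have h2 : lam * lh = ℓ h := by
          rw [hlh, hℓ']
          field_simp
        rw [h2]
        exact hℓ h
      have hBb : |B| ≤ (4 * C * p * R) * a := by
        calc |B| ≤ 2 * C * (‖P h‖ * ‖x‖) := hQb _ _
          _ ≤ 2 * C * ((p * a) * (2 * R)) := by
              gcongr
              exact hPb h
          _ = _ := by ring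
      have hGb : |G| ≤ 8 * C * R ^ 2 := by
        calc |G| ≤ 2 * C * (‖x‖ * ‖x‖) := hQb _ _
          _ ≤ 2 * C * ((2 * R) * (2 * R)) := by gcongr
          _ = _ := by ring
      set Z := 2 * m (2 * ‖k‖) * ‖k‖ ^ 2 with hZdef
      have hZ0 : 0 ≤ Z := by
        have := D.m_nonneg (2 * ‖k‖)
        positivity
      have hZ : Z ≤ 8 * (p + 1) ^ 2 * μ * a ^ 2 := by
        have h2 : m (2 * ‖k‖) ≤ μ := D.m_mono (by rw [hK2]; linarith)
        have h3 := D.m_nonneg (2 * ‖k‖)
        calc Z ≤ 2 * μ * (2 * (p + 1) * a) ^ 2 := by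
              rw [hZdef]
              gcongr
          _ = _ := by ring
      have hkey := key_real (lam := lam) (a := a) (q := q) (A := A) (E := E) (lh := lh) (B := B)
        (G := G) (Z := Z) (tau := tau) (L1 := L1) (c1 := c1) (c4 := c4) (K1 := K1) (K3 := K3)
        (P1 := (p + 1) ^ 2) (μ := μ) (CR := 4 * C * p * R) (GG := 8 * C * R ^ 2)
        ha0 hlam hq htau hEdef hμ0 hE0 (by positivity) hK1 hc1' hc4' haA hlam_lh hBb hGb
        (by positivity) hc4 hqK h8C (by linarith) hZ hZ0 htau1 htau2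
      rw [hℓk, hQk] at h1
      have h2 : N v R (x + k) ≤ 1 := by
        refine h1.trans (max_le le_rfl ?_)
        linarith
      rw [hxk, N_smul_pos (by positivity), inv_mul_eq_div, div_le_one htau0] at h2
      exact h2
    · -- large `h`
      have hapos : 0 < a := lt_trans ht0' hat
      have h1 : N v R (x + h) ≤ 1 + (1 / r₀) * a := by
        have h2 := N_add D x h
        have h3 := N_le D h
        rw [hx] at h2
        rw [one_div]
        linarith
      have h2 : -(8 * L1 * a) ≤ ℓ' h := (abs_le.1 (hℓ'b h)).1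
      have h3 : -(c1 * (a * a)) ≤ Q' h h := (abs_le.1 (hQ'b h h)).1
      have ht1 : t0 ≤ 1 := by
        rw [ht0, div_le_one hT0]
        exact hT1
      have h4 : (1 / r₀ + 8 * L1 + c1) / t0 ^ 2 * a ^ 3 ≤ K * (m (K * a) + a) * a ^ 2 := by
        have h5 : (1 / r₀ + 8 * L1 + c1) / t0 ^ 2 ≤ K := by rw [hK]; linarith
        have h6 := D.m_nonneg (K * a)
        calc (1 / r₀ + 8 * L1 + c1) / t0 ^ 2 * a ^ 3 ≤ K * a ^ 3 := by gcongr
          _ = K * (0 + a) * a ^ 2 := by ring
          _ ≤ _ := by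
              have : 0 ≤ K := le_trans hKl h5
              gcongr
      have h5 : a ≤ a ^ 3 / t0 ^ 2 := by
        rw [le_div_iff₀ (by positivity)]
        have h6 : t0 ^ 2 ≤ a ^ 2 := by gcongr
        calc a * t0 ^ 2 ≤ a * a ^ 2 := by gcongr
          _ = a ^ 3 := by ring
      have h6 : a * a ≤ a ^ 3 / t0 ^ 2 := by
        rw [le_div_iff₀ (by positivity)]
        have h7 : t0 ^ 2 ≤ a := by
          calc t0 ^ 2 = t0 * t0 := sq t0
            _ ≤ t0 * 1 := by gcongr
            _ ≤ a := by linarith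
        calc a * a * t0 ^ 2 ≤ a * a * a := by gcongr
          _ = a ^ 3 := by ring
      have h7 : (1 / r₀ + 8 * L1 + c1) / t0 ^ 2 * a ^ 3 =
          (1 / r₀ + 8 * L1) * (a ^ 3 / t0 ^ 2) + c1 * (a ^ 3 / t0 ^ 2) := by ring
      have h8 : (1 / r₀ + 8 * L1) * a ≤ (1 / r₀ + 8 * L1) * (a ^ 3 / t0 ^ 2) := by gcongr
      have h9 : c1 * (a * a) ≤ c1 * (a ^ 3 / t0 ^ 2) := by gcongr
      linarith

/-- The form is positive semidefinite and the linear part is a subgradient. -/
theorem convex_part (N : X → ℝ) (hadd : ∀ x y, N (x + y) ≤ N x + N y)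
    (hsmul : ∀ (c : ℝ) x, N (c • x) = |c| * N x) {K Mm : ℝ} (hK : 0 < K)
    (hm0 : ∀ t, 0 ≤ m t) (hM : ∀ t, m t ≤ Mm) (hlim : Tendsto m (𝓝[>] 0) (𝓝 0)) {x : X}
    (hx : N x = 1) (ℓ : X →L[ℝ] ℝ) (Q : X →L[ℝ] X →L[ℝ] ℝ)
    (hE : ∀ h, N (x + h) ≤ 1 + ℓ h + Q h h + K * (m (K * ‖h‖) + ‖h‖) * ‖h‖ ^ 2) :
    (∀ h, 0 ≤ Q h h) ∧ ∀ h, 1 + ℓ h ≤ N (x + h) := by
  have hQt : ∀ (t : ℝ) (h : X), Q (t • h) (t • h) = t * (t * Q h h) := fun t h => by
    rw [map_smul, map_smul]
    rfl
  have hℓt : ∀ (t : ℝ) (h : X), ℓ (t • h) = t * ℓ h := fun t h => by rw [map_smul]; rfl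
  constructor
  · intro h
    rcases eq_or_ne h 0 with h0 | h0
    · rw [h0, map_zero]
    have hh : 0 < ‖h‖ := norm_pos_iff.2 h0
    -- the inequality at scale `t`
    have key : ∀ t : ℝ, 0 < t → -(K * (m (K * (t * ‖h‖)) + t * ‖h‖) * ‖h‖ ^ 2) ≤ Q h h := by
      intro t ht
      have hn : ‖t • h‖ = t * ‖h‖ := by rw [norm_smul, Real.norm_of_nonneg ht.le]
      have h1 := hE (t • h)
      have h2 := hE ((-t) • h)
      have hn' : ‖(-t) • h‖ = t * ‖h‖ := by
        rw [norm_smul, norm_neg, Real.norm_of_nonneg ht.le]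
      rw [hn, hQt, hℓt] at h1
      rw [hn', hQt, hℓt] at h2
      have h3 := hadd (x + t • h) (x + (-t) • h)
      have e1 : x + t • h + (x + (-t) • h) = (2 : ℝ) • x := by
        rw [neg_smul, two_smul]
        abel
      rw [e1, hsmul, hx, abs_two, mul_one] at h3
      have h4 : 0 ≤ t ^ 2 * (Q h h + K * (m (K * (t * ‖h‖)) + t * ‖h‖) * ‖h‖ ^ 2) := by
        nlinarith
      have h5 := nonneg_of_mul_nonneg_right h4 (by positivity)
      linarith
    have hl : Tendsto (fun t : ℝ => -(K * (m (K * (t * ‖h‖)) + t * ‖h‖) * ‖h‖ ^ 2)) (𝓝[>] 0)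
        (𝓝 (-(K * (0 + 0) * ‖h‖ ^ 2))) := by
      have h1 : Tendsto (fun t : ℝ => t * ‖h‖) (𝓝[>] 0) (𝓝[>] 0) := by
        refine tendsto_nhdsWithin_iff.2 ⟨?_, ?_⟩
        · have : Tendsto (fun t : ℝ => t * ‖h‖) (𝓝 0) (𝓝 (0 * ‖h‖)) := by
            exact (continuous_id.mul continuous_const).tendsto 0
          rw [zero_mul] at this
          exact this.mono_left nhdsWithin_le_nhds
        · filter_upwards [self_mem_nhdsWithin] with t ht
          have : (0 : ℝ) < t := ht
          exact mul_pos this hh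
      have h2 : Tendsto (fun t : ℝ => K * (t * ‖h‖)) (𝓝[>] 0) (𝓝[>] 0) := by
        refine tendsto_nhdsWithin_iff.2 ⟨?_, ?_⟩
        · have : Tendsto (fun t : ℝ => K * (t * ‖h‖)) (𝓝 0) (𝓝 (K * (0 * ‖h‖))) := by
            exact (continuous_const.mul (continuous_id.mul continuous_const)).tendsto 0
          rw [zero_mul, mul_zero] at this
          exact this.mono_left nhdsWithin_le_nhds
        · filter_upwards [self_mem_nhdsWithin] with t ht
          have : (0 : ℝ) < t := ht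
          exact mul_pos hK (mul_pos this hh)
      have h3 := hlim.comp h2
      have h4 : Tendsto (fun t : ℝ => t * ‖h‖) (𝓝[>] 0) (𝓝 0) :=
        h1.mono_right nhdsWithin_le_nhds
      exact (((h3.add h4).const_mul K).mul_const (‖h‖ ^ 2)).neg
    have h6 := le_of_tendsto hl (by
      filter_upwards [self_mem_nhdsWithin] with t ht
      exact key t ht)
    simpa using h6
  · intro h
    set W := |Q h h| + K * (Mm + ‖h‖) * ‖h‖ ^ 2 + 1 with hW
    have hMm : 0 ≤ Mm := (hm0 0).trans (hM 0)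
    have hWpos : 0 < W := by positivity
    refine le_of_forall_pos_le_add fun ε hε => ?_
    set t := min 1 (ε / W) with ht
    have ht0 : 0 < t := by positivity
    have ht1 : t ≤ 1 := min_le_left _ _
    have ht2 : t * W ≤ ε := by
      have : t ≤ ε / W := min_le_right _ _
      rwa [le_div_iff₀ hWpos] at this
    have h1 := hE ((-t) • h)
    have hn' : ‖(-t) • h‖ = t * ‖h‖ := by
      rw [norm_smul, norm_neg, Real.norm_of_nonneg ht0.le]
    rw [hn', hQt, hℓt] at h1
    have h2 := hadd (t • (x + h)) (x + (-t) • h)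
    have e1 : t • (x + h) + (x + (-t) • h) = (1 + t) • x := by
      rw [neg_smul, add_smul, one_smul, smul_add]
      abel
    rw [e1, hsmul, hsmul, hx, abs_of_pos ht0, abs_of_pos (by linarith : 0 < 1 + t),
      mul_one] at h2
    have h3 : K * (m (K * (t * ‖h‖)) + t * ‖h‖) * (t * ‖h‖) ^ 2 ≤
        t * (t * (K * (Mm + ‖h‖) * ‖h‖ ^ 2)) := by
      have h4 : t * ‖h‖ ≤ ‖h‖ := by
        calc t * ‖h‖ ≤ 1 * ‖h‖ := by gcongr
          _ = _ := one_mul _
      have h5 := hM (K * (t * ‖h‖))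
      have h6 := hm0 (K * (t * ‖h‖))
      calc K * (m (K * (t * ‖h‖)) + t * ‖h‖) * (t * ‖h‖) ^ 2 ≤
          K * (Mm + ‖h‖) * (t * ‖h‖) ^ 2 := by gcongr
        _ = _ := by ring
    have h4 : t * (t * Q h h) ≤ t * (t * |Q h h|) := by
      gcongr
      exact le_abs_self _
    have h5 : t * (1 + ℓ h) ≤ t * (N (x + h) + t * W) := by
      have h6 : t * (t * W) = t * (t * |Q h h|) + t * (t * (K * (Mm + ‖h‖) * ‖h‖ ^ 2)) +
          t * t := by rw [hW]; ring
      have h7 : 0 ≤ t * t := by positivity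
      have h8 : t * (N (x + h) + t * W) = t * N (x + h) + t * (t * W) := by ring
      rw [h8, h6]
      nlinarith
    have h6 := le_of_mul_le_mul_left h5 ht0
    linarith

end Pool.Agent.Helper18.UCHull
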