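import Mathlib

/-!
# A convex hull in `X × ℝ` with second order upper expansions
-/

open Filter Topology Set

namespace Pool.Agent.Helper18.UCHull

variable {X : Type*} [NormedAddCommGroup X] [NormedSpace ℝ X]

/-- The data extracted from a bump. -/
structure Dat (v : X → ℝ) (R C r₀ : ℝ) (m : ℝ → ℝ) : Prop where
  R_pos : 0 < R
  C_nonneg : 0 ≤ C
  r₀_pos : 0 < r₀
  r₀_le : r₀ ≤ R
  m_mono : Monotone m
  m_nonneg : ∀ t, 0 ≤ m t
  even : ∀ y, v (-y) = v y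
  zero : v 0 = 0
  low : ∀ y, -(1 / 8) ≤ v y
  far : ∀ y, R ≤ ‖y‖ → v y = 1
  near : ∀ y, ‖y‖ ≤ r₀ → v y ≤ 1 / 8
  exp : ∀ y, ∃ (ℓ : X →L[ℝ] ℝ) (Q : X →L[ℝ] X →L[ℝ] ℝ),
    (∀ h k, Q h k = Q k h) ∧ (∀ h k, |Q h k| ≤ C * (‖h‖ * ‖k‖)) ∧
      ∀ h, v (y + h) ≤ v y + ℓ h + Q h h + m ‖h‖ * ‖h‖ ^ 2

/-- The epigraph over the ball of radius `3 R`. -/
def Ep (v : X → ℝ) (R : ℝ) : Set (X × ℝ) := {p | ‖p.1‖ ≤ 3 * R ∧ v p.1 ≤ p.2}

def Ep1 (v : X → ℝ) (R : ℝ) : Set (X × ℝ) := {p | ‖p.1‖ ≤ R ∧ v p.1 ≤ p.2}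

def Ep2 (v : X → ℝ) (R : ℝ) : Set (X × ℝ) := {p | R ≤ ‖p.1‖ ∧ ‖p.1‖ ≤ 3 * R ∧ v p.1 ≤ p.2}

/-- Its convex hull. -/
def Hu (v : X → ℝ) (R : ℝ) : Set (X × ℝ) := convexHull ℝ (Ep v R)

theorem Ep_eq {v : X → ℝ} {R : ℝ} (hR : 0 < R) : Ep v R = Ep1 v R ∪ Ep2 v R := by
  ext p
  simp only [Ep, Ep1, Ep2, Set.mem_ofPred_eq, mem_union]
  constructor
  · rintro ⟨h1, h2⟩
    rcases le_total ‖p.1‖ R with h | h
    · exact Or.inl ⟨h, h2⟩
    · exact Or.inr ⟨h, h1, h2⟩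
  · rintro (⟨h1, h2⟩ | ⟨_, h1, h2⟩)
    · exact ⟨by linarith, h2⟩
    · exact ⟨h1, h2⟩

theorem Hu_convex (v : X → ℝ) (R : ℝ) : Convex ℝ (Hu v R) := convex_convexHull ℝ _

theorem comb {v : X → ℝ} {R : ℝ} {x y : X} {r s a b : ℝ} (hx : (x, r) ∈ Hu v R)
    (hy : (y, s) ∈ Hu v R) (ha : 0 ≤ a) (hb : 0 ≤ b) (hab : a + b = 1) :
    (a • x + b • y, a * r + b * s) ∈ Hu v R := by
  have := Hu_convex v R hx hy ha hb hab
  simpa [Prod.smul_mk, Prod.mk_add_mk] using this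

theorem up {v : X → ℝ} {R : ℝ} {x : X} {r s : ℝ} (hx : (x, r) ∈ Hu v R) (hrs : r ≤ s) :
    (x, s) ∈ Hu v R := by
  have h1 : Ep v R ⊆ (fun z : X × ℝ => z + (((0 : X), s - r) : X × ℝ)) ⁻¹' (Hu v R) := by
    intro p hp
    refine subset_convexHull ℝ _ ?_
    refine ⟨?_, ?_⟩
    · simpa using hp.1
    · have := hp.2
      simp only [Prod.fst_add, Prod.snd_add, add_zero]
      linarith
  have h2 := convexHull_min h1 ((Hu_convex v R).translate_preimage_left _)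
  have h3 := h2 hx
  simpa using h3

theorem symm {v : X → ℝ} {R : ℝ} (hv : ∀ y, v (-y) = v y) {x : X} {r : ℝ}
    (hx : (x, r) ∈ Hu v R) : (-x, r) ∈ Hu v R := by
  let L : X × ℝ →ₗ[ℝ] X × ℝ := (-LinearMap.id).prodMap LinearMap.id
  have h1 : Ep v R ⊆ L ⁻¹' (Hu v R) := by
    intro p hp
    refine subset_convexHull ℝ _ ?_
    refine ⟨?_, ?_⟩
    · simpa [L] using hp.1
    · have := hp.2
      simp only [L, LinearMap.prodMap_apply, LinearMap.neg_apply, LinearMap.id_apply]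
      rw [hv]
      exact this
  have h2 := convexHull_min h1 ((Hu_convex v R).linear_preimage L)
  exact h2 hx

section

variable {v : X → ℝ} {R C r₀ : ℝ} {m : ℝ → ℝ}

theorem low' (D : Dat v R C r₀ m) {x : X} {r : ℝ} (hx : (x, r) ∈ Hu v R) : -(1 / 8) ≤ r := by
  have h1 : Ep v R ⊆ (LinearMap.snd ℝ X ℝ) ⁻¹' (Ici (-(1 / 8))) := by
    intro p hp
    exact (D.low p.1).trans hp.2
  exact convexHull_min h1 ((convex_Ici _).linear_preimage _) hx

/-- the near part expands -/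
theorem near_exp (D : Dat v R C r₀ m) {a : X × ℝ} (ha : a ∈ convexHull ℝ (Ep1 v R)) :
    ∃ (ℓ : X →L[ℝ] ℝ) (Q : X →L[ℝ] X →L[ℝ] ℝ),
    (∀ h k, Q h k = Q k h) ∧ (∀ h k, |Q h k| ≤ C * (‖h‖ * ‖k‖)) ∧
      ∀ h, ‖h‖ ≤ 2 * R → (a.1 + h, a.2 + ℓ h + Q h h + m ‖h‖ * ‖h‖ ^ 2) ∈ Hu v R := by
  let S : Set (X × ℝ) := {a | ∃ (ℓ : X →L[ℝ] ℝ) (Q : X →L[ℝ] X →L[ℝ] ℝ),
    (∀ h k, Q h k = Q k h) ∧ (∀ h k, |Q h k| ≤ C * (‖h‖ * ‖k‖)) ∧
      ∀ h, ‖h‖ ≤ 2 * R → (a.1 + h, a.2 + ℓ h + Q h h + m ‖h‖ * ‖h‖ ^ 2) ∈ Hu v R}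
  have h1 : Ep1 v R ⊆ S := by
    intro p hp
    obtain ⟨ℓ, Q, hQ, hC, he⟩ := D.exp p.1
    refine ⟨ℓ, Q, hQ, hC, fun h hh => ?_⟩
    refine subset_convexHull ℝ _ ⟨?_, ?_⟩
    · have := norm_add_le p.1 h
      have := hp.1
      change ‖p.1 + h‖ ≤ 3 * R
      linarith
    · have h2 := he h
      have := hp.2
      change v (p.1 + h) ≤ _
      linarith
  have h2 : Convex ℝ S := by
    rintro p ⟨ℓ, Q, hQ, hC, he⟩ p' ⟨ℓ', Q', hQ', hC', he'⟩ s t hs ht hst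
    refine ⟨s • ℓ + t • ℓ', s • Q + t • Q', fun h k => ?_, ?_, fun h hh => ?_⟩
    · change s * Q h k + t * Q' h k = s * Q k h + t * Q' k h
      rw [hQ, hQ']
    · intro h k
      change |s * Q h k + t * Q' h k| ≤ _
      calc |s * Q h k + t * Q' h k| ≤ |s * Q h k| + |t * Q' h k| := abs_add_le _ _
        _ = s * |Q h k| + t * |Q' h k| := by
            rw [abs_mul, abs_mul, abs_of_nonneg hs, abs_of_nonneg ht]
        _ ≤ s * (C * (‖h‖ * ‖k‖)) + t * (C * (‖h‖ * ‖k‖)) := by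
            gcongr
            · exact hC h k
            · exact hC' h k
        _ = C * (‖h‖ * ‖k‖) := by rw [← add_mul, hst, one_mul]
    · have h3 := comb (he h hh) (he' h hh) hs ht hst
      have e1 : s • (p.1 + h) + t • (p'.1 + h) = (s • p + t • p').1 + h := by
        have : (s • p + t • p').1 = s • p.1 + t • p'.1 := rfl
        rw [this, smul_add, smul_add]
        have h4 : h = s • h + t • h := by rw [← add_smul, hst, one_smul]
        conv_rhs => rw [h4]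
        abel
      have e2 : s * (p.2 + ℓ h + Q h h + m ‖h‖ * ‖h‖ ^ 2) +
          t * (p'.2 + ℓ' h + Q' h h + m ‖h‖ * ‖h‖ ^ 2) =
          (s • p + t • p').2 + (s • ℓ + t • ℓ') h + (s • Q + t • Q') h h +
            m ‖h‖ * ‖h‖ ^ 2 := by
        have h5 : (s • p + t • p').2 = s * p.2 + t * p'.2 := rfl
        have h6 : (s • ℓ + t • ℓ') h = s * ℓ h + t * ℓ' h := rfl
        have h7 : (s • Q + t • Q') h h = s * Q h h + t * Q' h h := rfl
        rw [h5, h6, h7]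
        have h8 : m ‖h‖ * ‖h‖ ^ 2 = (s + t) * (m ‖h‖ * ‖h‖ ^ 2) := by rw [hst, one_mul]
        conv_rhs => rw [h8]
        ring
      rw [e1, e2] at h3
      exact h3
  exact convexHull_min h1 h2 ha

/-- Expansion at the points of level at most `1 / 8`. -/
theorem exp_H [Nontrivial X] (D : Dat v R C r₀ m) {x : X} {r : ℝ} (hx : (x, r) ∈ Hu v R)
    (hr : r ≤ 1 / 8) : ‖x‖ ≤ 2 * R ∧ ∃ (ℓ : X →L[ℝ] ℝ) (Q : X →L[ℝ] X →L[ℝ] ℝ),
    (∀ h k, Q h k = Q k h) ∧ (∀ h k, |Q h k| ≤ 2 * C * (‖h‖ * ‖k‖)) ∧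
      ∀ h, ‖h‖ ≤ R → (x + h, r + ℓ h + Q h h + 2 * m (2 * ‖h‖) * ‖h‖ ^ 2) ∈ Hu v R := by
  have hR := D.R_pos
  have hne1 : (Ep1 v R).Nonempty := ⟨(0, 0), by
    refine ⟨?_, ?_⟩
    · simpa using hR.le
    · exact D.zero.le⟩
  have hne2 : (Ep2 v R).Nonempty := by
    obtain ⟨e, he⟩ := exists_norm_eq X hR.le
    refine ⟨(e, 1), ?_, ?_, ?_⟩
    · exact he.ge
    · change ‖e‖ ≤ _
      rw [he]
      linarith
    · exact (D.far e he.ge).le
  have hx' := hx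
  rw [Hu, Ep_eq hR, convexHull_union hne1 hne2] at hx
  obtain ⟨a, ha, b, hb, hs⟩ := mem_convexJoin.1 hx
  obtain ⟨l, μ, hl, hμ, hlμ, hab⟩ := hs
  have hb2 : 1 ≤ b.2 := by
    have h1 : Ep2 v R ⊆ (LinearMap.snd ℝ X ℝ) ⁻¹' (Ici 1) := by
      intro p hp
      have := D.far p.1 hp.1
      have := hp.2.2
      change 1 ≤ p.2
      linarith
    exact convexHull_min h1 ((convex_Ici _).linear_preimage _) hb
  have hb1 : ‖b.1‖ ≤ 3 * R := by
    have h1 : Ep2 v R ⊆ (LinearMap.fst ℝ X ℝ) ⁻¹' (Metric.closedBall 0 (3 * R)) := by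
      intro p hp
      have := hp.2.1
      simpa using this
    have := convexHull_min h1 ((convex_closedBall _ _).linear_preimage _) hb
    simpa using this
  have ha1 : ‖a.1‖ ≤ R := by
    have h1 : Ep1 v R ⊆ (LinearMap.fst ℝ X ℝ) ⁻¹' (Metric.closedBall 0 R) := by
      intro p hp
      have := hp.1
      simpa using this
    have := convexHull_min h1 ((convex_closedBall _ _).linear_preimage _) ha
    simpa using this
  have hE1 : Ep1 v R ⊆ Ep v R := by rw [Ep_eq hR]; exact subset_union_left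
  have hE2 : Ep2 v R ⊆ Ep v R := by rw [Ep_eq hR]; exact subset_union_right
  have haH : a ∈ Hu v R := convexHull_mono hE1 ha
  have hbH : b ∈ Hu v R := convexHull_mono hE2 hb
  have ha2 : -(1 / 8) ≤ a.2 := low' D (x := a.1) (r := a.2) haH
  have e1 : l • a.1 + μ • b.1 = x := congrArg Prod.fst hab
  have e2 : l * a.2 + μ * b.2 = r := congrArg Prod.snd hab
  have hl1 : l ≤ 1 := by linarith
  have hμ1 : μ ≤ 1 / 4 := by nlinarith
  have hl34 : 3 / 4 ≤ l := by linarith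
  have hlpos : 0 < l := by linarith
  refine ⟨?_, ?_⟩
  · calc ‖x‖ = ‖l • a.1 + μ • b.1‖ := by rw [e1]
      _ ≤ ‖l • a.1‖ + ‖μ • b.1‖ := norm_add_le _ _
      _ = l * ‖a.1‖ + μ * ‖b.1‖ := by
          rw [norm_smul, norm_smul, Real.norm_of_nonneg hl, Real.norm_of_nonneg hμ]
      _ ≤ l * R + μ * (3 * R) := by gcongr
      _ ≤ 2 * R := by nlinarith
  · obtain ⟨ℓ, Q, hQ, hC, he⟩ := near_exp D ha
    refine ⟨ℓ, l⁻¹ • Q, fun h k => ?_, ?_, fun h hh => ?_⟩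
    · change l⁻¹ * Q h k = l⁻¹ * Q k h
      rw [hQ]
    · intro h k
      have h1 : l⁻¹ ≤ 2 := by
        rw [inv_le_comm₀ hlpos (by norm_num)]
        linarith
      change |l⁻¹ * Q h k| ≤ _
      rw [abs_mul, abs_of_nonneg (show 0 ≤ l⁻¹ by positivity), mul_assoc]
      exact mul_le_mul h1 (hC h k) (abs_nonneg _) (by norm_num)
    · have hinv : l⁻¹ ≤ 4 / 3 := by
        rw [inv_le_comm₀ hlpos (by norm_num)]
        linarith
      have hinv0 : 0 ≤ l⁻¹ := by positivity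
      have hn : ‖l⁻¹ • h‖ = l⁻¹ * ‖h‖ := by
        rw [norm_smul, Real.norm_of_nonneg hinv0]
      have h1 := he (l⁻¹ • h) (by
        rw [hn]
        nlinarith [norm_nonneg h])
      have h2 := comb h1 (show (b.1, b.2) ∈ Hu v R from hbH) hl hμ hlμ
      have e3 : l • (a.1 + l⁻¹ • h) + μ • b.1 = x + h := by
        rw [smul_add, smul_smul, mul_inv_cancel₀ hlpos.ne', one_smul, ← e1]
        abel
      rw [e3] at h2
      refine up h2 ?_
      have e10 : ℓ (l⁻¹ • h) = l⁻¹ * ℓ h := by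
        rw [map_smul]
        rfl
      have e4 : Q (l⁻¹ • h) (l⁻¹ • h) = l⁻¹ * (l⁻¹ * Q h h) := by
        rw [map_smul, map_smul]
        rfl
      rw [hn, e10, e4]
      change l * (a.2 + l⁻¹ * ℓ h + l⁻¹ * (l⁻¹ * Q h h) +
        m (l⁻¹ * ‖h‖) * (l⁻¹ * ‖h‖) ^ 2) +
        μ * b.2 ≤ r + ℓ h + l⁻¹ * Q h h + 2 * m (2 * ‖h‖) * ‖h‖ ^ 2
      have hm : m (l⁻¹ * ‖h‖) ≤ m (2 * ‖h‖) := by
        apply D.m_mono
        nlinarith [norm_nonneg h]
      have hm0 := D.m_nonneg (2 * ‖h‖)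
      have hm1 := D.m_nonneg (l⁻¹ * ‖h‖)
      have e5 : l * (m (l⁻¹ * ‖h‖) * (l⁻¹ * ‖h‖) ^ 2) = l⁻¹ * m (l⁻¹ * ‖h‖) * ‖h‖ ^ 2 := by
        field_simp
      have e6 : l⁻¹ * m (l⁻¹ * ‖h‖) * ‖h‖ ^ 2 ≤ 2 * m (2 * ‖h‖) * ‖h‖ ^ 2 := by
        gcongr
        linarith
      have e7 : l * (l⁻¹ * ℓ h) = ℓ h := by
        rw [← mul_assoc, mul_inv_cancel₀ hlpos.ne', one_mul]
      have e8 : l * (l⁻¹ * (l⁻¹ * Q h h)) = l⁻¹ * Q h h := by
        rw [← mul_assoc, mul_inv_cancel₀ hlpos.ne', one_mul]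
      have e9 : l * (a.2 + l⁻¹ * ℓ h + l⁻¹ * (l⁻¹ * Q h h) +
          m (l⁻¹ * ‖h‖) * (l⁻¹ * ‖h‖) ^ 2) = l * a.2 + l * (l⁻¹ * ℓ h) +
          l * (l⁻¹ * (l⁻¹ * Q h h)) + l * (m (l⁻¹ * ‖h‖) * (l⁻¹ * ‖h‖) ^ 2) := by ring
      rw [e9, e7, e8, e5]
      linarith

/-- `8 s` bounds the gauge. -/
theorem zero_mem (D : Dat v R C r₀ m) : ((0 : X), (0 : ℝ)) ∈ Hu v R :=
  subset_convexHull ℝ _ ⟨by simpa using D.R_pos.le, D.zero.le⟩

/-- the unit ball of the new norm -/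
def K (v : X → ℝ) (R : ℝ) : Set X := {x | (x, 1 / 8) ∈ Hu v R}

theorem K_convex : Convex ℝ (K v R) := by
  intro x hx y hy a b ha hb hab
  have := comb hx hy ha hb hab
  have e : a * (1 / 8) + b * (1 / 8) = (1 / 8 : ℝ) := by rw [← add_mul, hab, one_mul]
  rw [e] at this
  exact this

theorem K_ball (D : Dat v R C r₀ m) : Metric.closedBall 0 r₀ ⊆ K v R := by
  intro y hy
  have hy' : ‖y‖ ≤ r₀ := by simpa using hy
  refine subset_convexHull ℝ _ ⟨?_, ?_⟩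
  · have := D.r₀_le
    have := D.R_pos
    change ‖y‖ ≤ 3 * R
    linarith
  · exact D.near y hy'

theorem K_absorbs (D : Dat v R C r₀ m) : Absorbent ℝ (K v R) := by
  have h1 : Metric.closedBall (0 : X) r₀ ∈ 𝓝 (0 : X) := Metric.closedBall_mem_nhds _ D.r₀_pos
  exact (absorbent_nhds_zero h1).mono (K_ball D)

/-- the new norm -/
noncomputable def N (v : X → ℝ) (R : ℝ) (x : X) : ℝ := gauge (K v R) x

theorem N_add (D : Dat v R C r₀ m) (x y : X) : N v R (x + y) ≤ N v R x + N v R y :=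
  gauge_add_le K_convex (K_absorbs D) x y

theorem N_smul_pos {a : ℝ} (ha : 0 ≤ a) (x : X) :
    N v R (a • x) = a * N v R x := by
  have := gauge_smul_of_nonneg ha (s := K v R) (x := x)
  simpa [N] using this

theorem N_neg (D : Dat v R C r₀ m) (x : X) : N v R (-x) = N v R x := by
  have hs : ∀ x ∈ K v R, -x ∈ K v R := fun x hx => symm D.even hx
  exact gauge_neg hs x

theorem N_smul (D : Dat v R C r₀ m) (a : ℝ) (x : X) : N v R (a • x) = |a| * N v R x := by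
  rcases le_total 0 a with h | h
  · rw [N_smul_pos h, abs_of_nonneg h]
  · have h1 : a • x = -((-a) • x) := by rw [neg_smul, neg_neg]
    rw [h1, N_neg D, N_smul_pos (by linarith), abs_of_nonpos h]

theorem N_nonneg (x : X) : 0 ≤ N v R x := gauge_nonneg _

theorem N_le_of_mem {x : X} (hx : x ∈ K v R) : N v R x ≤ 1 := gauge_le_one_of_mem hx

theorem mem_of_N_lt (D : Dat v R C r₀ m) {x : X} (hx : N v R x < 1) : x ∈ K v R := by
  obtain ⟨b, hb0, hb1, y, hy, hxy⟩ := exists_lt_of_gauge_lt (K_absorbs D) hx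
  have h0 : (0 : X) ∈ K v R := K_ball D (by simpa using D.r₀_pos.le)
  have h1 := K_convex h0 hy (show 0 ≤ 1 - b by linarith) hb0.le (by ring)
  simp only [smul_zero, zero_add] at h1
  have hxy' : b • y = x := hxy
  rwa [hxy'] at h1

theorem N_le (D : Dat v R C r₀ m) (x : X) : N v R x ≤ r₀⁻¹ * ‖x‖ := by
  have hr := D.r₀_pos
  rcases eq_or_ne x 0 with h | h
  · rw [h]
    simp [N, gauge_zero]
  · have hx : 0 < ‖x‖ := norm_pos_iff.2 h
    have h1 : (r₀ / ‖x‖) • x ∈ K v R := by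
      apply K_ball D
      simp only [mem_closedBall_zero_iff]
      rw [norm_smul, Real.norm_of_nonneg (by positivity), div_mul_cancel₀ _ hx.ne']
    have h2 := N_le_of_mem h1
    rw [N_smul_pos (by positivity)] at h2
    rw [div_mul_eq_mul_div, div_le_one hx] at h2
    rw [inv_mul_eq_div, le_div_iff₀ hr]
    linarith

theorem le_N [Nontrivial X] (D : Dat v R C r₀ m) (x : X) : ‖x‖ ≤ 2 * R * N v R x := by
  by_contra hcon
  push Not at hcon
  have hR := D.R_pos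
  have hx : 0 < ‖x‖ := lt_of_le_of_lt (mul_nonneg (by positivity) (N_nonneg x)) hcon
  -- choose a point of `K` with a large norm
  obtain ⟨t, ht1, ht2⟩ : ∃ t : ℝ, N v R x < t ∧ 2 * R * t < ‖x‖ := by
    have : N v R x < ‖x‖ / (2 * R) := by
      rw [lt_div_iff₀ (by positivity)]
      linarith
    obtain ⟨t, h1, h2⟩ := exists_between this
    refine ⟨t, h1, ?_⟩
    rw [lt_div_iff₀ (by positivity)] at h2
    linarith
  have ht0 : 0 < t := lt_of_le_of_lt (N_nonneg x) ht1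
  have h1 : N v R (t⁻¹ • x) < 1 := by
    rw [N_smul_pos (by positivity), inv_mul_eq_div, div_lt_one ht0]
    exact ht1
  have h2 := mem_of_N_lt D h1
  have h3 := (exp_H D h2 le_rfl).1
  rw [norm_smul, Real.norm_of_nonneg (by positivity), inv_mul_eq_div, div_le_iff₀ ht0] at h3
  linarith

theorem N_le_max (D : Dat v R C r₀ m) {y : X} {s : ℝ} (hy : (y, s) ∈ Hu v R) :
    N v R y ≤ max 1 (8 * s) := by
  rcases le_or_gt s (1 / 8) with h | h
  · exact (N_le_of_mem (up hy h)).trans (le_max_left _ _)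
  · have hs : 0 < s := by linarith
    have hθ : 0 ≤ 1 / (8 * s) := by positivity
    have hθ1 : 1 / (8 * s) ≤ 1 := by
      rw [div_le_one (by positivity)]
      linarith
    have h1 := comb hy (zero_mem D) hθ (show 0 ≤ 1 - 1 / (8 * s) by linarith) (by ring)
    have e1 : 1 / (8 * s) * s + (1 - 1 / (8 * s)) * 0 = 1 / 8 := by
      field_simp
      ring
    rw [e1, smul_zero, add_zero] at h1
    have h2 := N_le_of_mem (show (1 / (8 * s)) • y ∈ K v R from h1)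
    rw [N_smul_pos hθ, div_mul_eq_mul_div, one_mul, div_le_one (by positivity)] at h2
    exact h2.trans (le_max_right _ _)

end

end Pool.Agent.Helper18.UCHull
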