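import Pool.Agent.Helper18.UCHull

/-!
# Limits of linear and bilinear forms along an ultrafilter, and the expansion at a boundary point
-/

open Filter Topology Set

namespace Pool.Agent.Helper18.UCHull

variable {X : Type*} [NormedAddCommGroup X] [NormedSpace ℝ X]

theorem ulim (u : ℕ → ℝ) {B : ℝ} (h : ∀ n, |u n| ≤ B) :
    ∃ a, |a| ≤ B ∧ Tendsto u (hyperfilter ℕ : Filter ℕ) (𝓝 a) := by
  have h1 : (((hyperfilter ℕ).map u : Ultrafilter ℝ) : Filter ℝ) ≤ 𝓟 (Icc (-B) B) := by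
    rw [Ultrafilter.coe_map, le_principal_iff, mem_map]
    refine Filter.univ_mem' fun n => ?_
    exact abs_le.1 (h n)
  obtain ⟨a, ha, hle⟩ := isCompact_Icc.ultrafilter_le_nhds _ h1
  exact ⟨a, abs_le.2 ha, hle⟩

theorem lim_forms (ℓ : ℕ → X →L[ℝ] ℝ) (Q : ℕ → X →L[ℝ] X →L[ℝ] ℝ) {B C : ℝ}
    (hℓ : ∀ n h, |ℓ n h| ≤ B * ‖h‖) (hs : ∀ n h k, Q n h k = Q n k h)
    (hQ : ∀ n h k, |Q n h k| ≤ C * (‖h‖ * ‖k‖)) :
    ∃ (ℓ' : X →L[ℝ] ℝ) (Q' : X →L[ℝ] X →L[ℝ] ℝ), (∀ h, |ℓ' h| ≤ B * ‖h‖) ∧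
      (∀ h k, Q' h k = Q' k h) ∧ (∀ h k, |Q' h k| ≤ C * (‖h‖ * ‖k‖)) ∧
      (∀ h, Tendsto (fun n => ℓ n h) (hyperfilter ℕ : Filter ℕ) (𝓝 (ℓ' h))) ∧
      (∀ h k, Tendsto (fun n => Q n h k) (hyperfilter ℕ : Filter ℕ) (𝓝 (Q' h k))) := by
  choose a hab ha using fun h => ulim (fun n => ℓ n h) (fun n => hℓ n h)
  choose b hbb hb using fun h k => ulim (fun n => Q n h k) (fun n => hQ n h k)
  let L : X →ₗ[ℝ] ℝ :=
    { toFun := a
      map_add' := fun x y => by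
        refine tendsto_nhds_unique (ha (x + y)) ?_
        refine ((ha x).add (ha y)).congr fun n => ?_
        rw [map_add]
      map_smul' := fun c x => by
        refine tendsto_nhds_unique (ha (c • x)) ?_
        refine ((ha x).const_mul c).congr fun n => ?_
        rw [map_smul]
        rfl }
  let M : X →ₗ[ℝ] X →ₗ[ℝ] ℝ := LinearMap.mk₂ ℝ b
    (fun x y z => by
        refine tendsto_nhds_unique (hb (x + y) z) ?_
        refine ((hb x z).add (hb y z)).congr fun n => ?_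
        rw [map_add]
        rfl)
    (fun c x z => by
        refine tendsto_nhds_unique (hb (c • x) z) ?_
        refine ((hb x z).const_mul c).congr fun n => ?_
        rw [map_smul]
        rfl)
    (fun x y z => by
        refine tendsto_nhds_unique (hb x (y + z)) ?_
        refine ((hb x y).add (hb x z)).congr fun n => ?_
        rw [map_add])
    (fun c x z => by
        refine tendsto_nhds_unique (hb x (c • z)) ?_
        refine ((hb x z).const_mul c).congr fun n => ?_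
        rw [map_smul]
        rfl)
  have hM : ∀ x y, ‖M x y‖ ≤ C * ‖x‖ * ‖y‖ := fun x y => by
    rw [Real.norm_eq_abs, mul_assoc]
    exact hbb x y
  refine ⟨L.mkContinuous B fun x => hab x, M.mkContinuous₂ C hM, hab, fun h k => ?_, hbb, ha, hb⟩
  change b h k = b k h
  refine tendsto_nhds_unique (hb h k) ?_
  exact (hb k h).congr fun n => hs n k h

variable {v : X → ℝ} {R C r₀ : ℝ} {m : ℝ → ℝ}

theorem bound_of_low {B : ℝ} (hR : 0 < R) (ℓ : X →L[ℝ] ℝ)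
    (h : ∀ h, ‖h‖ ≤ R → -ℓ h ≤ B) (k : X) : |ℓ k| ≤ B / R * ‖k‖ := by
  rcases eq_or_ne k 0 with hk | hk
  · simp [hk]
  · have hk' : 0 < ‖k‖ := norm_pos_iff.2 hk
    have h1 : ∀ s : ℝ, |s| = R / ‖k‖ → -ℓ (s • k) ≤ B := fun s hs => by
      apply h
      rw [norm_smul, Real.norm_eq_abs, hs, div_mul_cancel₀ _ hk'.ne']
    have h2 := h1 (R / ‖k‖) (abs_of_pos (by positivity))
    have h3 := h1 (-(R / ‖k‖)) (by rw [abs_neg, abs_of_pos (by positivity)])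
    rw [map_smul] at h2 h3
    change -(R / ‖k‖ * ℓ k) ≤ B at h2
    change -(-(R / ‖k‖) * ℓ k) ≤ B at h3
    have h4 : |R / ‖k‖ * ℓ k| ≤ B := abs_le.2 ⟨by linarith, by linarith⟩
    rw [abs_mul, abs_of_pos (show 0 < R / ‖k‖ by positivity)] at h4
    have h5 : R / ‖k‖ * |ℓ k| = (R * |ℓ k|) / ‖k‖ := by ring
    rw [h5, div_le_iff₀ hk'] at h4
    rw [div_mul_eq_mul_div, le_div_iff₀ hR]
    linarith

/-- the bound of the linear part -/
noncomputable def Bd (R C : ℝ) (m : ℝ → ℝ) : ℝ :=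
  (1 / 4 + 2 * C * R ^ 2 + 2 * m (2 * R) * R ^ 2) / R

theorem at_point [Nontrivial X] (D : Dat v R C r₀ m) {x : X} (hx : N v R x = 1) :
    ∃ (ℓ : X →L[ℝ] ℝ) (Q : X →L[ℝ] X →L[ℝ] ℝ), (∀ h, |ℓ h| ≤ Bd R C m * ‖h‖) ∧
      (∀ h k, Q h k = Q k h) ∧ (∀ h k, |Q h k| ≤ 2 * C * (‖h‖ * ‖k‖)) ∧
      ∀ h, ‖h‖ ≤ R → N v R (x + h) ≤
        max 1 (1 + 8 * (ℓ h + Q h h + 2 * m (2 * ‖h‖) * ‖h‖ ^ 2)) := by
  have hR := D.R_pos
  have hC := D.C_nonneg
  have hs0 : ∀ n : ℕ, 0 < 1 / ((n : ℝ) + 2) := fun n => by positivity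
  have hs1 : ∀ n : ℕ, 1 / ((n : ℝ) + 2) ≤ 1 := fun n => by
    rw [div_le_one (by positivity)]
    have : (0 : ℝ) ≤ n := n.cast_nonneg
    linarith
  have hmem : ∀ n : ℕ, (1 - 1 / ((n : ℝ) + 2)) • x ∈ K v R := fun n => by
    apply mem_of_N_lt D
    rw [N_smul_pos (by linarith [hs1 n]), hx]
    linarith [hs0 n]
  have hex := fun n => (exp_H D (hmem n) le_rfl).2
  choose ℓ Q hQs hQb hE using hex
  have hℓb : ∀ n h, |ℓ n h| ≤ Bd R C m * ‖h‖ := by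
    intro n
    refine bound_of_low hR (ℓ n) fun h hh => ?_
    have h1 := low' D (hE n h hh)
    have h2 := le_abs_self (Q n h h)
    have h3 := hQb n h h
    have h4 : ‖h‖ * ‖h‖ ≤ R ^ 2 := by nlinarith [norm_nonneg h]
    have h5 : 2 * C * (‖h‖ * ‖h‖) ≤ 2 * C * R ^ 2 := by gcongr
    have h6 : m (2 * ‖h‖) ≤ m (2 * R) := D.m_mono (by linarith)
    have h7 : 2 * m (2 * ‖h‖) * ‖h‖ ^ 2 ≤ 2 * m (2 * R) * R ^ 2 := by
      have := D.m_nonneg (2 * ‖h‖)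
      have := D.m_nonneg (2 * R)
      gcongr
    linarith
  obtain ⟨ℓ', Q', h1, h2, h3, h4, h5⟩ := lim_forms ℓ Q hℓb hQs hQb
  refine ⟨ℓ', Q', h1, h2, h3, fun h hh => ?_⟩
  have hle : ∀ n : ℕ, N v R (x + h) - 1 / ((n : ℝ) + 2) ≤
      max 1 (8 * (1 / 8 + ℓ n h + Q n h h + 2 * m (2 * ‖h‖) * ‖h‖ ^ 2)) := by
    intro n
    have h6 := N_le_max D (hE n h hh)
    have h7 := N_add D ((1 - 1 / ((n : ℝ) + 2)) • x + h) ((1 / ((n : ℝ) + 2)) • x)
    have e1 : (1 - 1 / ((n : ℝ) + 2)) • x + h + (1 / ((n : ℝ) + 2)) • x = x + h := by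
      rw [sub_smul, one_smul]
      abel
    rw [e1, N_smul_pos (hs0 n).le, hx, mul_one] at h7
    linarith
  have hlim1 : Tendsto (fun n : ℕ => N v R (x + h) - 1 / ((n : ℝ) + 2))
      (hyperfilter ℕ : Filter ℕ) (𝓝 (N v R (x + h))) := by
    have h8 : Tendsto (fun n : ℕ => 1 / ((n : ℝ) + 2)) atTop (𝓝 0) := by
      refine Tendsto.div_atTop tendsto_const_nhds ?_
      exact tendsto_atTop_add_const_right _ _ tendsto_natCast_atTop_atTop
    have h9 := (h8.mono_left (Nat.hyperfilter_le_atTop)).const_sub (N v R (x + h))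
    rwa [sub_zero] at h9
  have hlim2 : Tendsto (fun n : ℕ =>
      max 1 (8 * (1 / 8 + ℓ n h + Q n h h + 2 * m (2 * ‖h‖) * ‖h‖ ^ 2)))
      (hyperfilter ℕ : Filter ℕ)
      (𝓝 (max 1 (8 * (1 / 8 + ℓ' h + Q' h h + 2 * m (2 * ‖h‖) * ‖h‖ ^ 2)))) := by
    refine tendsto_const_nhds.max ?_
    exact ((((h4 h).const_add (1 / 8)).add (h5 h h)).add_const _).const_mul 8
  have h10 := le_of_tendsto_of_tendsto' hlim1 hlim2 hle
  have e2 : 8 * (1 / 8 + ℓ' h + Q' h h + 2 * m (2 * ‖h‖) * ‖h‖ ^ 2) =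
    1 + 8 * (ℓ' h + Q' h h + 2 * m (2 * ‖h‖) * ‖h‖ ^ 2) := by ring
  rwa [e2] at h10

end Pool.Agent.Helper18.UCHull
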